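import Pool.Agent.Helper19.HV.Curve
import Pool.Agent.Helper91.PL.A2

/-!
# Project HV, module FTR: functions killing `R 2` satisfy the five-term relation
-/

set_option autoImplicit false

open Polynomial

namespace Pool.Agent.Helper19.HV

noncomputable section

open PL

private theorem ftr_val_sub {G : Type} [Field G] {a : G} {f g : RatFunc G} {x y : G}
    (hf : val a (some f) = some x) (hg : val a (some g) = some y) :
    val a (some (f - g)) = some (x - y) := by
  have h1 : f - g = f + RatFunc.C (-1) * g := by
    rw [map_neg, map_one]; ring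
  rw [h1, val_add hf (val_mul (val_C a (-1)) hg)]
  congr 1
  ring

private theorem ftr_val_div {G : Type} [Field G] {a : G} {f g : RatFunc G} {x y : G}
    (hf : val a (some f) = some x) (hg : val a (some g) = some y) (hy : y ≠ 0) :
    val a (some (f / g)) = some (x / y) := by
  rw [div_eq_mul_inv, div_eq_mul_inv]
  exact val_mul hf (val_inv hg hy)

private theorem ftr_ne {G : Type} [Field G] {a : G} {f g : RatFunc G} {x y : G}
    (hf : val a (some f) = some x) (hg : val a (some g) = some y) (hxy : x ≠ y) : f ≠ g := by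
  intro h
  rw [h, hg] at hf
  exact hxy (Option.some.inj hf).symm

theorem mFTR
    (hBET : ∀ {G N : Type} [Field G] [AddCommGroup N] [Module ℚ N]
      (A : V G →ₗ[ℚ] V G →ₗ[ℚ] N), Al2 A → FT5 fun x : G => A (lg (1 - x)) (lg x))
    (hF2K : ∀ {G : Type} [Field G] (α : ZP G),
      (∀ A : V G →ₗ[ℚ] V G →ₗ[ℚ] ℚ, Al2 A → Finsupp.linearCombination ℚ (sy2 A) α = 0) →
        α ∈ AA 2 G)
    {G N : Type} [Field G] [AddCommGroup N] [Module ℚ N] (ψ : P1 G → N) (h : Kil 2 ψ) :
    FT5 (fun x : G => ψ (some x)) ∧ ψ none = 0 := by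
  have hgen : ∀ x : P1 G, (Finsupp.single x 1 : ZP G) ∈
      ({Finsupp.single (some 0) 1, Finsupp.single none 1} : Set (ZP G)) → ψ x = 0 := by
    intro x hx
    have h1 : (Finsupp.single x 1 : ZP G) ∈ R 2 G :=
      Submodule.mem_sup_left (Submodule.subset_span hx)
    have h2 := h _ h1
    rwa [Finsupp.linearCombination_single, one_smul] at h2
  have h0 : ψ (some 0) = 0 := hgen (some 0) (Set.mem_insert _ _)
  have hinf : ψ none = 0 := hgen none (Set.mem_insert_of_mem _ rfl)
  -- specialisation
  have hspec : ∀ α : ZP (RatFunc G), α ∈ AA 2 (RatFunc G) →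
      Finsupp.linearCombination ℚ (fun x => ψ (val 0 x)) α =
        Finsupp.linearCombination ℚ (fun x => ψ (val 1 x)) α := by
    intro α hα
    have h1 : (spec (0 : G) - spec (1 : G)) α ∈ R 2 G :=
      Submodule.mem_sup_right (Submodule.mem_map_of_mem hα)
    have h2 := h _ h1
    rw [LinearMap.sub_apply, map_sub, sub_eq_zero] at h2
    have h3 : ∀ a : G, Finsupp.linearCombination ℚ ψ (spec a α) =
        Finsupp.linearCombination ℚ (fun x => ψ (val a x)) α := by
      intro a
      unfold spec
      rw [Finsupp.lmapDomain_apply, Finsupp.linearCombination_mapDomain]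
      rfl
    rw [h3, h3] at h2
    exact h2
  -- membership for all alternating forms
  have hmem : ∀ α : ZP (RatFunc G),
      (∀ D : RatFunc G → ℚ, FT5 D → Finsupp.linearCombination ℚ (ext0 D) α = 0) →
        α ∈ AA 2 (RatFunc G) := by
    intro α hα
    refine hF2K α ?_
    intro A hA
    have h1 := hα _ (hBET A hA)
    have h2 : (sy2 A : P1 (RatFunc G) → ℚ) =
        ext0 (fun x : RatFunc G => A (lg (1 - x)) (lg x)) := by
      funext x
      cases x with
      | none => simp only [sy2, ext0, cl1, cl, map_zero]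
      | some x => rfl
    rw [h2]
    exact h1
  -- inv
  have hinv : ∀ x : G, ψ (some x⁻¹) = - ψ (some x) := by
    intro x
    by_cases hx : x = 0
    · rw [hx, inv_zero, h0, neg_zero]
    · have e0 : val (0 : G) (some (RatFunc.C x * RatFunc.X)) = some 0 := by
        rw [val_mul (val_C 0 x) (val_X 0), mul_zero]
      have e1 : val (1 : G) (some (RatFunc.C x * RatFunc.X)) = some x := by
        rw [val_mul (val_C 1 x) (val_X 1), mul_one]
      have hne : (RatFunc.C x * RatFunc.X : RatFunc G) ≠ 0 := by
        have := ftr_ne (a := (1 : G)) e1 (val_C 1 0) hx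
        rwa [map_zero] at this
      have e0' : val (0 : G) (some (RatFunc.C x * RatFunc.X)⁻¹) = none := by
        refine val_eq_none (inv_ne_zero hne) ?_
        rw [inv_inv, e0]
      have e1' : val (1 : G) (some (RatFunc.C x * RatFunc.X)⁻¹) = some x⁻¹ := val_inv e1 hx
      have h1 := hspec (Finsupp.single (some (RatFunc.C x * RatFunc.X)) 1 +
        Finsupp.single (some (RatFunc.C x * RatFunc.X)⁻¹) 1) (by
          refine hmem _ ?_
          intro D hD
          rw [map_add, Finsupp.linearCombination_single, Finsupp.linearCombination_single,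
            one_smul, one_smul]
          simp only [ext0]
          rw [hD.inv]
          exact add_neg_cancel _)
      simp only [map_add, Finsupp.linearCombination_single, one_smul] at h1
      rw [e0, e1, e0', e1', h0, hinf, add_zero] at h1
      exact eq_neg_of_add_eq_zero_right h1.symm
  have hone : ψ (some 1) = 0 := by
    have h1 := hinv 1
    rw [inv_one] at h1
    have h2 : (2 : ℚ) • ψ (some 1) = 0 := by
      rw [two_smul]
      nth_rewrite 1 [h1]
      exact neg_add_cancel _
    exact (smul_eq_zero.mp h2).resolve_left two_ne_zero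
  have hsub : ∀ x : G, ψ (some (1 - x)) = - ψ (some x) := by
    intro x
    have e0 : val (0 : G) (some (RatFunc.C x * RatFunc.X)) = some 0 := by
      rw [val_mul (val_C 0 x) (val_X 0), mul_zero]
    have e1 : val (1 : G) (some (RatFunc.C x * RatFunc.X)) = some x := by
      rw [val_mul (val_C 1 x) (val_X 1), mul_one]
    have o0 : ∀ a : G, val a (some (1 : RatFunc G)) = some 1 := by
      intro a
      have := val_C a (1 : G)
      rwa [map_one] at this
    have e0' : val (0 : G) (some (1 - RatFunc.C x * RatFunc.X)) = some 1 := by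
      rw [ftr_val_sub (o0 0) e0, sub_zero]
    have e1' : val (1 : G) (some (1 - RatFunc.C x * RatFunc.X)) = some (1 - x) :=
      ftr_val_sub (o0 1) e1
    have h1 := hspec (Finsupp.single (some (RatFunc.C x * RatFunc.X)) 1 +
      Finsupp.single (some (1 - RatFunc.C x * RatFunc.X)) 1) (by
        refine hmem _ ?_
        intro D hD
        rw [map_add, Finsupp.linearCombination_single, Finsupp.linearCombination_single,
          one_smul, one_smul]
        simp only [ext0]
        rw [hD.one_sub]
        exact add_neg_cancel _)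
    simp only [map_add, Finsupp.linearCombination_single, one_smul] at h1
    rw [e0, e1, e0', e1', h0, hone, add_zero] at h1
    exact eq_neg_of_add_eq_zero_right h1.symm
  refine ⟨⟨h0, hsub, hinv, ?_⟩, hinf⟩
  intro x y hx0 hx1 hy0 hy1 hxy
  have o0 : ∀ a : G, val a (some (1 : RatFunc G)) = some 1 := by
    intro a
    have := val_C a (1 : G)
    rwa [map_one] at this
  obtain ⟨Y, hY⟩ : ∃ Y : RatFunc G, Y = 1 + RatFunc.X * RatFunc.C (y - 1) := ⟨_, rfl⟩
  have v0 : val (0 : G) (some Y) = some 1 := by
    rw [hY, val_add (o0 0) (val_mul (val_X 0) (val_C 0 (y - 1))), zero_mul, add_zero]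
  have v1 : val (1 : G) (some Y) = some y := by
    rw [hY, val_add (o0 1) (val_mul (val_X 1) (val_C 1 (y - 1))), one_mul]
    congr 1
    ring
  have n0 : Y ≠ 0 := by
    have := ftr_ne v0 (val_C 0 0) one_ne_zero
    rwa [map_zero] at this
  have n1 : Y ≠ 1 := by
    have := ftr_ne v1 (val_C 1 1) hy1
    rwa [map_one] at this
  have nx0 : (RatFunc.C x : RatFunc G) ≠ 0 := by
    have := ftr_ne (val_C 0 x) (val_C 0 0) hx0
    rwa [map_zero] at this
  have nx1 : (RatFunc.C x : RatFunc G) ≠ 1 := by
    have := ftr_ne (val_C 0 x) (val_C 0 1) hx1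
    rwa [map_one] at this
  have nxY : (RatFunc.C x : RatFunc G) ≠ Y := ftr_ne (val_C 0 x) v0 hx1
  have hyx : y - x ≠ 0 := sub_ne_zero.mpr (Ne.symm hxy)
  have h1x : (1 : G) - x ≠ 0 := sub_ne_zero.mpr (Ne.symm hx1)
  have hy1' : y - 1 ≠ 0 := sub_ne_zero.mpr hy1
  -- values at 1
  have a2 : val (1 : G) (some (RatFunc.C x / Y)) = some (x / y) :=
    ftr_val_div (val_C 1 x) v1 hy0
  have a3 : val (1 : G) (some ((Y - RatFunc.C x) / (Y - 1))) = some ((y - x) / (y - 1)) :=
    ftr_val_div (ftr_val_sub v1 (val_C 1 x)) (ftr_val_sub v1 (o0 1)) hy1'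
  have a4 : val (1 : G) (some (RatFunc.C x * (Y - 1) / (Y - RatFunc.C x))) =
      some (x * (y - 1) / (y - x)) :=
    ftr_val_div (val_mul (val_C 1 x) (ftr_val_sub v1 (o0 1))) (ftr_val_sub v1 (val_C 1 x)) hyx
  -- values at 0
  have b2 : val (0 : G) (some (RatFunc.C x / Y)) = some x := by
    rw [ftr_val_div (val_C 0 x) v0 one_ne_zero, div_one]
  have b3 : val (0 : G) (some ((Y - RatFunc.C x) / (Y - 1))) = none := by
    refine val_eq_none (div_ne_zero (sub_ne_zero.mpr (Ne.symm nxY)) (sub_ne_zero.mpr n1)) ?_
    rw [inv_div, ftr_val_div (ftr_val_sub v0 (o0 0)) (ftr_val_sub v0 (val_C 0 x)) h1x, sub_self,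
      zero_div]
  have b4 : val (0 : G) (some (RatFunc.C x * (Y - 1) / (Y - RatFunc.C x))) = some 0 := by
    rw [ftr_val_div (val_mul (val_C 0 x) (ftr_val_sub v0 (o0 0))) (ftr_val_sub v0 (val_C 0 x))
      h1x, sub_self, mul_zero, zero_div]
  have h1 := hspec (Finsupp.single (some Y) 1 + Finsupp.single (some (RatFunc.C x / Y)) 1 +
    Finsupp.single (some ((Y - RatFunc.C x) / (Y - 1))) 1 +
    Finsupp.single (some (RatFunc.C x * (Y - 1) / (Y - RatFunc.C x))) 1 -
    Finsupp.single (some (RatFunc.C x)) 1) (by
      refine hmem _ ?_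
      intro D hD
      rw [map_sub, map_add, map_add, map_add, Finsupp.linearCombination_single,
        Finsupp.linearCombination_single, Finsupp.linearCombination_single,
        Finsupp.linearCombination_single, Finsupp.linearCombination_single,
        one_smul, one_smul, one_smul, one_smul, one_smul]
      simp only [ext0]
      rw [hD.five (RatFunc.C x) Y nx0 nx1 n0 n1 nxY]
      exact sub_self _)
  simp only [map_add, map_sub, Finsupp.linearCombination_single, one_smul] at h1
  rw [v0, v1, a2, a3, a4, b2, b3, b4, val_C, val_C, h0, hone, hinf, zero_add, add_zero, add_zero,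
    sub_self] at h1
  exact sub_eq_zero.mp h1.symm

end

end Pool.Agent.Helper19.HV
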