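import Pool.Agent.Helper19.HV.StC

/-!
# Project HV, module WED : the map y -> y wedge (t - a)
-/

set_option autoImplicit false

open scoped TensorProduct

namespace Pool.Agent.Helper19.HV

noncomputable section

open PL

private theorem wed_snoc {G : Type} [Field G] (j : ℕ) (v : Fin j → V G) (a : V G) :
    pr G (j + 1) (Fin.snoc (α := fun _ => V G) v a) =
      (-1 : ℚ) ^ j • pr G (j + 1) (Fin.cons a v) := by
  have h : (Fin.snoc (α := fun _ => V G) v a : Fin (j + 1) → V G) =
      (Fin.cons a v : Fin (j + 1) → V G) ∘ finRotate (j + 1) := by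
    have h0 := Fin.snoc_eq_cons_rotate v a
    rw [h0]
    rfl
  rw [h, AlternatingMap.map_perm, sign_finRotate, Nat.add_sub_cancel]
  rcases Nat.even_or_odd j with hj | hj
  · rw [hj.neg_one_pow, hj.neg_one_pow, one_smul, one_smul]
  · rw [hj.neg_one_pow, hj.neg_one_pow, neg_smul, one_smul]
    exact (Units.neg_smul _ _).trans (congrArg _ (one_smul _ _))

/-- The map `λ ↦ λ ∧ (t - a)`. -/
private def om (F : Type) [Field F] (a : F) (j : ℕ) :
    W (RatFunc F) j →ₗ[ℚ] W (RatFunc F) (j + 1) :=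
  (-1 : ℚ) ^ j • wdg (RatFunc F) j (E a)

private theorem om_pr (F : Type) [Field F] (a : F) (j : ℕ) (v : Fin j → V (RatFunc F)) :
    om F a j (pr (RatFunc F) j v) =
      pr (RatFunc F) (j + 1) (Fin.snoc (α := fun _ => V (RatFunc F)) v (E a)) := by
  rw [wed_snoc]
  unfold om
  rw [LinearMap.smul_apply, wdg_pr]

/-- The family of maps. -/
private def ww (F : Type) [Field F] (a : F) :
    ∀ k j : ℕ, Γ (RatFunc F) k j →ₗ[ℚ] Γ (RatFunc F) k (j + 1)
  | 0, _ => 0
  | 1, j => om F a (j + 1)
  | (q + 2), j => LinearMap.lTensor (B (q + 2) (RatFunc F)) (om F a j)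

theorem mWED : sWED := by
  intro F _ a
  refine ⟨ww F a, ?_, ?_⟩
  · intro j v
    exact om_pr F a (j + 1) v
  · intro q j x v
    rw [← om_pr]
    rfl

end

end Pool.Agent.Helper19.HV
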